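import Mathlib
import Pool.Agent.Lib.MP_808c84_nt.Final

/-!
The curves `E_k` of the Fibonacci family with odd index `k ≥ 3` have rank at least two.
-/

set_option autoImplicit false

namespace Pool.Agent.Results.MP_808c84_nt.OddIndices

open Pool.Agent.Lib.MP_808c84_nt

/-- the Fibonacci number `F_n` as a rational number -/
def F (n : ℕ) : ℚ := Nat.fib n

/-- The Weierstrass model
`Y² = (X + F_{2k} F_{2k+2}) (X + F_{2k} F_{2k+4}) (X + F_{2k+2} F_{2k+4})`
of the curve `E_k`, written out: `a₁ = a₃ = 0`, and `a₂, a₄, a₆` are the elementary symmetric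
functions of the three products. -/
def E (k : ℕ) : WeierstrassCurve ℚ where
  a₁ := 0
  a₂ := F (2 * k) * F (2 * k + 2) + F (2 * k) * F (2 * k + 4) + F (2 * k + 2) * F (2 * k + 4)
  a₃ := 0
  a₄ := (F (2 * k) * F (2 * k + 2)) * (F (2 * k) * F (2 * k + 4)) +
    (F (2 * k) * F (2 * k + 2)) * (F (2 * k + 2) * F (2 * k + 4)) +
    (F (2 * k) * F (2 * k + 4)) * (F (2 * k + 2) * F (2 * k + 4))
  a₆ := (F (2 * k) * F (2 * k + 2)) * (F (2 * k) * F (2 * k + 4)) *
    (F (2 * k + 2) * F (2 * k + 4))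

theorem result (k : ℕ) (hodd : Odd k) (hk : 3 ≤ k) :
    (E k).IsElliptic ∧
    (∀ x y : ℚ, y ^ 2 = ∏ j ∈ Finset.range 3, (F (2 * k + 2 * j) * x + 1) ↔
      (E k).toAffine.Equation (F (2 * k) * F (2 * k + 2) * F (2 * k + 4) * x)
        (F (2 * k) * F (2 * k + 2) * F (2 * k + 4) * y)) ∧
    2 ≤ Module.rank ℤ (E k).toAffine.Point := by
  let D : Dat := ⟨k, hodd, hk⟩
  have hE : E k = D.W := rfl
  refine ⟨?_, ?_, ?_⟩
  · rw [hE]; infer_instance
  · intro x y
    have h1 : (E k).toAffine.Equation (F (2 * k) * F (2 * k + 2) * F (2 * k + 4) * x)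
        (F (2 * k) * F (2 * k + 2) * F (2 * k + 4) * y) ↔ _ := D.eq_iff _ _
    rw [h1]
    have hA : 0 < F (2 * k) := D.A_pos
    have hB : 0 < F (2 * k + 2) := D.B_pos
    have hC : 0 < F (2 * k + 4) := D.C_pos
    have he : D.e = F (2 * k) * F (2 * k + 2) := rfl
    have hf : D.f = F (2 * k) * F (2 * k + 4) := rfl
    have hg : D.g = F (2 * k + 2) * F (2 * k + 4) := rfl
    rw [he, hf, hg]
    simp only [Finset.prod_range_succ, Finset.prod_range_zero, one_mul, mul_zero, add_zero,
      mul_one, show 2 * 2 = 4 by norm_num]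
    have hne : (F (2 * k) * F (2 * k + 2) * F (2 * k + 4)) ^ 2 ≠ 0 := by positivity
    constructor
    · intro h
      linear_combination (F (2 * k) * F (2 * k + 2) * F (2 * k + 4)) ^ 2 * h
    · intro h
      apply mul_left_cancel₀ hne
      linear_combination h
  · have h := D.indep.cardinal_le_rank
    rw [hE]
    simpa using h

end Pool.Agent.Results.MP_808c84_nt.OddIndices
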